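import Pool.Agent.H523.ZG.Stm

set_option autoImplicit false
set_option linter.unusedSectionVars false

/-! # (E1) the error term of a set of primes in terms of the moduli -/

namespace Pool.Agent.H335.ZG.E1

open Polynomial Finset
open Pool.Agent.H341R2.Sharp (Mon mem_Mon)
open Pool.Agent.H523.FF (Ir mem_Ir PL mem_PL card_PL two_le_card IrLE mem_IrLE)
open Pool.Agent.H523.CM (gP aP cB SF LS th vth tot GG MSq Nav pw zs pd mem_pd tot_eq iP
  prod_dvd_iff norm_gt cB_values)
open Pool.Agent.H523.ZG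

open scoped Classical

variable {F : Type} [Field F] [Fintype F]

theorem aP_eq {P : F[X]} (hP : Irreducible P) (x : F[X]) :
    aP P x = -(1 + gP P) * (if P ∣ x then 1 else 0) + gP P := by
  have hn := norm_gt hP
  have h1 : (Fintype.card F : ℝ) ^ P.natDegree - 1 ≠ 0 := by linarith
  unfold aP gP
  split_ifs
  · field_simp
    ring
  · field_simp
    ring

theorem cB_eq {P : F[X]} (hP : Irreducible P) (h : F[X]) :
    cB P h = -(1 + gP P) * (if P ∣ h then 0 else gP P) + gP P := by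
  rw [cB_values hP]
  split_ifs
  · ring
  · ring

theorem pd_prod {t : Finset F[X]} (ht : ∀ P ∈ t, P.Monic ∧ Irreducible P) :
    pd (∏ P ∈ t, P) = t := by
  have hm : (∏ P ∈ t, P).Monic := monic_prod_of_monic _ _ (fun P hP => (ht P hP).1)
  ext P
  rw [mem_pd hm]
  constructor
  · rintro ⟨h1, h2, h3⟩
    obtain ⟨P', hP', hd⟩ := (Prime.dvd_finsetProd_iff h2.prime _).1 h3
    have h4 : Associated P P' := h2.associated_of_dvd (ht P' hP').2 hd
    have h5 : P = P' := eq_of_monic_of_associated h1 (ht P' hP').1 h4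
    rw [h5]
    exact hP'
  · intro hP
    exact ⟨(ht P hP).1, (ht P hP).2, dvd_prod_of_mem (fun P => P) hP⟩

theorem tot_prod {t : Finset F[X]} (ht : ∀ P ∈ t, P.Monic ∧ Irreducible P) :
    ∏ P ∈ t, gP P = 1 / (tot (∏ P ∈ t, P) : ℝ) := by
  have hm : (∏ P ∈ t, P).Monic := monic_prod_of_monic _ _ (fun P hP => (ht P hP).1)
  rw [tot_eq hm, pd_prod ht, natDegree_prod_of_monic _ _ (fun P hP => (ht P hP).1),
    ← Finset.prod_pow_eq_pow_sum, ← Finset.prod_mul_distrib, one_div, ← Finset.prod_inv_distrib]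
  refine Finset.prod_congr rfl (fun P hP => ?_)
  have hn := norm_gt (ht P hP).2
  have h1 : (Fintype.card F : ℝ) ^ P.natDegree - 1 ≠ 0 := by linarith
  have h2 : (Fintype.card F : ℝ) ^ P.natDegree ≠ 0 := by linarith
  unfold gP iP
  rw [mul_sub, mul_one, mul_one_div_cancel h2, one_div]

theorem prod_ind {t : Finset F[X]} (ht : ∀ P ∈ t, P.Monic ∧ Irreducible P) (x : F[X]) :
    ∏ P ∈ t, (if P ∣ x then (1:ℝ) else 0) = if ∏ P ∈ t, P ∣ x then 1 else 0 := by
  split_ifs with h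
  · exact Finset.prod_eq_one (fun P hP => if_pos ((prod_dvd_iff ht x).1 h P hP))
  · rw [prod_dvd_iff ht] at h
    push Not at h
    obtain ⟨P, hP, hx⟩ := h
    exact Finset.prod_eq_zero hP (if_neg hx)

theorem prod_cop {t : Finset F[X]} (ht : ∀ P ∈ t, P.Monic ∧ Irreducible P) (h : F[X]) :
    ∏ P ∈ t, (if P ∣ h then (0:ℝ) else gP P) =
      if IsCoprime h (∏ P ∈ t, P) then 1 / (tot (∏ P ∈ t, P) : ℝ) else 0 := by
  have key : IsCoprime h (∏ P ∈ t, P) ↔ ∀ P ∈ t, ¬ P ∣ h := by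
    rw [IsCoprime.prod_right_iff]
    refine forall₂_congr (fun P hP => ?_)
    rw [isCoprime_comm, (ht P hP).2.coprime_iff_not_dvd]
  split_ifs with hc
  · rw [← tot_prod ht]
    exact Finset.prod_congr rfl (fun P hP => if_neg (key.1 hc P hP))
  · rw [key] at hc
    push Not at hc
    obtain ⟨P, hP, hx⟩ := hc
    exact Finset.prod_eq_zero hP (if_pos hx)

theorem main : S_E1 := by
  intro F _ _ n s Q hs
  have hsub : ∀ t ∈ s.powerset, ∀ P ∈ t, P.Monic ∧ Irreducible P :=
    fun t ht P hP => hs P (Finset.mem_powerset.1 ht hP)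
  have hA : ∀ x : F[X], ∏ P ∈ s, aP P x = ∑ t ∈ s.powerset,
      ((∏ P ∈ s \ t, gP P) * ∏ P ∈ t, (-(1 + gP P))) * (if ∏ P ∈ t, P ∣ x then 1 else 0) := by
    intro x
    rw [Finset.prod_congr rfl (fun P hP => aP_eq (hs P hP).2 x), Finset.prod_add]
    refine Finset.sum_congr rfl (fun t ht => ?_)
    rw [Finset.prod_mul_distrib, prod_ind (hsub t ht) x]
    ring
  have hB : ∀ h : F[X], ∏ P ∈ s, cB P h = ∑ t ∈ s.powerset,
      ((∏ P ∈ s \ t, gP P) * ∏ P ∈ t, (-(1 + gP P))) *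
        (if IsCoprime h (∏ P ∈ t, P) then 1 / (tot (∏ P ∈ t, P) : ℝ) else 0) := by
    intro h
    rw [Finset.prod_congr rfl (fun P hP => cB_eq (hs P hP).2 h), Finset.prod_add]
    refine Finset.sum_congr rfl (fun t ht => ?_)
    rw [Finset.prod_mul_distrib, prod_cop (hsub t ht) h]
    ring
  have hC : ∀ h : F[X], ∑ f ∈ Mon F n, th n f * ∏ P ∈ s, aP P (f - Q * h) -
      Th F n * ∏ P ∈ s, cB P h = ∑ t ∈ s.powerset,
      ((∏ P ∈ s \ t, gP P) * ∏ P ∈ t, (-(1 + gP P))) *
        (vth n (∏ P ∈ t, P) (Q * h) - if IsCoprime h (∏ P ∈ t, P) then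
          Th F n / (tot (∏ P ∈ t, P) : ℝ) else 0) := by
    intro h
    have h1 : ∑ f ∈ Mon F n, th n f * ∏ P ∈ s, aP P (f - Q * h) = ∑ t ∈ s.powerset,
        ((∏ P ∈ s \ t, gP P) * ∏ P ∈ t, (-(1 + gP P))) * vth n (∏ P ∈ t, P) (Q * h) := by
      rw [Finset.sum_congr rfl (fun f _ => by rw [hA (f - Q * h), Finset.mul_sum]),
        Finset.sum_comm]
      refine Finset.sum_congr rfl (fun t _ => ?_)
      unfold vth
      rw [Finset.sum_filter, Finset.mul_sum]
      refine Finset.sum_congr rfl (fun f _ => ?_)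
      split_ifs
      · ring
      · ring
    rw [h1, hB h, Finset.mul_sum, ← Finset.sum_sub_distrib]
    refine Finset.sum_congr rfl (fun t _ => ?_)
    split_ifs
    · ring
    · ring
  unfold ET DM
  rw [Finset.sum_congr rfl (fun h _ => hC h), Finset.sum_comm]
  refine Finset.sum_congr rfl (fun t _ => ?_)
  rw [Finset.mul_sum]

end Pool.Agent.H335.ZG.E1
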